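import Mathlib

/-!
# Planar digraphs of digirth `g` with star dichromatic number exactly `(g-1)/(g-2)`

For every `g ≥ 4` we construct a planar digraph on `4 g - 3` vertices, of digirth `g`, whose star
dichromatic number equals `(g-1)/(g-2)`.

The digraph: a directed `g`-cycle `b_0 → b_1 → … → b_{g-1} → b_0`, and for each `j = 1, 2, 3` a
directed path `W_j` on `g - 1` new vertices with arcs from `b_0` and from `b_j` to its first vertex
and from its last vertex to `b_0` and to `b_j`.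
-/

namespace Pool.Agent.Results.MP_ff0133_co.StarDichromaticTight

variable {V : Type*}

/-- `f 0, f 1, …, f (n-1), f n = f 0` is a directed cycle of length `n` of the digraph `D`:
the vertices `f 0, …, f (n-1)` are distinct and there is an arc from `f i` to `f (i+1)` for each
`i < n`. -/
def IsDirectedCycle (D : Digraph V) (n : ℕ) (f : ℕ → V) : Prop :=
  1 ≤ n ∧ f n = f 0 ∧ Set.InjOn f (Set.Iio n) ∧ ∀ i < n, D.Adj (f i) (f (i + 1))

/-- The digirth of `D` is `g`: `g` is the least length of a directed cycle of `D`. -/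
def HasDigirth (D : Digraph V) (g : ℕ) : Prop :=
  IsLeast {n : ℕ | ∃ f : ℕ → V, IsDirectedCycle D n f} g

/-- The vertex set `S` is acyclic: no directed cycle of `D` has all its vertices in `S`. -/
def IsAcyclicSet (D : Digraph V) (S : Set V) : Prop :=
  ∀ (n : ℕ) (f : ℕ → V), IsDirectedCycle D n f → ¬ ∀ i < n, f i ∈ S

/-- `c` is an acyclic `(k, d)`-colouring of `D`, where `k ≥ d ≥ 1`: for each `i ∈ ℤ/k` the set of
vertices with colour in `{i, i + 1, …, i + d - 1}` is acyclic. -/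
def IsAcyclicColouring (D : Digraph V) (k d : ℕ) (c : V → ZMod k) : Prop :=
  1 ≤ d ∧ d ≤ k ∧ ∀ i : ZMod k, IsAcyclicSet D {v | ∃ j : ℕ, j < d ∧ c v = i + (j : ZMod k)}

/-- The star dichromatic number: the infimum of `k / d` over all acyclic `(k, d)`-colourings. -/
noncomputable def starDichromaticNumber (D : Digraph V) : ℝ :=
  sInf {r : ℝ | ∃ (k d : ℕ) (c : V → ZMod k), IsAcyclicColouring D k d c ∧ r = (k : ℝ) / (d : ℝ)}

/-- The underlying undirected graph of the (loopless) digraph `D` is planar: there is a drawing in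
the plane `ℝ × ℝ` with distinct points `p v` for the vertices, in which each arc `(u, v)` is drawn
as a simple continuous curve `γ u v` from `p u` to `p v` that passes through no other vertex point,
and in which the curves of two arcs that do not join the same two vertices meet only in vertex
points (hence only in common endpoints). -/
def IsPlanar (D : Digraph V) : Prop :=
  ∃ (p : V → ℝ × ℝ) (γ : V → V → ℝ → ℝ × ℝ),
    Function.Injective p ∧
    (∀ u v, D.Adj u v → ContinuousOn (γ u v) (Set.Icc 0 1) ∧ Set.InjOn (γ u v) (Set.Icc 0 1) ∧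
      γ u v 0 = p u ∧ γ u v 1 = p v) ∧
    (∀ u v w, D.Adj u v → p w ∈ γ u v '' Set.Icc 0 1 → w = u ∨ w = v) ∧
    (∀ u v x y, D.Adj u v → D.Adj x y → ¬ (u = x ∧ v = y) → ¬ (u = y ∧ v = x) →
      ∀ q, q ∈ γ u v '' Set.Icc 0 1 → q ∈ γ x y '' Set.Icc 0 1 → ∃ w, q = p w)

/-! ## The construction

Labels: `b_0 = 0`, `b_1 = g`, `b_2 = 2 g`, `b_i = 3 g + (i - 3)` for `3 ≤ i ≤ g - 1`, and
`W_j = {(j - 1) g + 1, …, (j - 1) g + g - 1}`. -/

/-- The arcs `x → y` of the digraph, on the labels `0, …, 4 g - 4`. -/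
def tAdj (g x y : ℕ) : Prop :=
  (y = x + 1 ∧ 1 ≤ x ∧ x ≠ g ∧ x ≠ 2 * g ∧ x < 4 * g - 4) ∨
  (x = 0 ∧ (y = 1 ∨ y = g + 1 ∨ y = 2 * g + 1 ∨ y = g)) ∨
  (y = 0 ∧ (x = g - 1 ∨ x = 2 * g - 1 ∨ x = 3 * g - 1 ∨ x = 4 * g - 4)) ∨
  (x = g ∧ y = 1) ∨ (x = 2 * g ∧ y = g + 1) ∨ (x = 3 * g ∧ y = 2 * g + 1) ∨
  (x = g ∧ y = 2 * g) ∨ (x = 2 * g ∧ y = 3 * g)

/-- The digraph. -/
def tDigraph (g : ℕ) : Digraph (Fin (4 * g - 3)) where
  Adj x y := tAdj g x.val y.val

/-- A colour for each arc. -/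
def arcCol (g x y : ℕ) : ℕ :=
  if x = 0 then 0
  else if x < g then x
  else if x = g then (if y = 1 then 0 else 1)
  else if x < 2 * g then x - g
  else if x = 2 * g then (if y = g + 1 then 0 else 2)
  else if x < 3 * g then x - 2 * g
  else if x = 3 * g ∧ y = 2 * g + 1 then 0
  else x - 3 * g + 3

/-- Topological rank of the digraph after the removal of the arcs of colour `q`. -/
def rk (g q x : ℕ) : ℕ :=
  if x = 0 then 2 * g - q - 1
  else if x < g then (if q < x then x else 3 * g + x)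
  else if x = g then (if q < 1 then g + 1 - q - 1 else 2 * g + 1 - q - 1)
  else if x < 2 * g then (if q < x - g then x - g else 3 * g + (x - g))
  else if x = 2 * g then (if q < 2 then g + 2 - q - 1 else 2 * g + 2 - q - 1)
  else if x < 3 * g then (if q < x - 2 * g then x - 2 * g else 3 * g + (x - 2 * g))
  else (if q < x - 3 * g + 3 then g + (x - 3 * g + 3) - q - 1
    else 2 * g + (x - 3 * g + 3) - q - 1)

/-- The colour of a vertex. -/
def col (g x : ℕ) : ℕ :=
  if x = 0 then 0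
  else if x < g then x - 1
  else if x = g then 1
  else if x < 2 * g then x - g - 1
  else if x = 2 * g then 2
  else if x < 3 * g then x - 2 * g - 1
  else if x = 4 * g - 4 then 0
  else x - 3 * g + 3


section regions
variable {g q x y : ℕ}

lemma rk_0 : rk g q 0 = 2 * g - q - 1 := by simp [rk]
lemma rk_A (h0 : 0 < x) (h1 : x < g) : rk g q x = if q < x then x else 3 * g + x := by
  unfold rk; rw [if_neg (by omega), if_pos h1]
lemma rk_g (hg : 4 ≤ g) : rk g q g = if q < 1 then g + 1 - q - 1 else 2 * g + 1 - q - 1 := by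
  unfold rk; rw [if_neg (by omega), if_neg (by omega), if_pos rfl]
lemma rk_B (h0 : g < x) (h1 : x < 2 * g) :
    rk g q x = if q < x - g then x - g else 3 * g + (x - g) := by
  unfold rk; rw [if_neg (by omega), if_neg (by omega), if_neg (by omega), if_pos h1]
lemma rk_2g (hg : 4 ≤ g) :
    rk g q (2 * g) = if q < 2 then g + 2 - q - 1 else 2 * g + 2 - q - 1 := by
  unfold rk; rw [if_neg (by omega), if_neg (by omega), if_neg (by omega), if_neg (by omega),
    if_pos rfl]
lemma rk_C (h0 : 2 * g < x) (h1 : x < 3 * g) :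
    rk g q x = if q < x - 2 * g then x - 2 * g else 3 * g + (x - 2 * g) := by
  unfold rk; rw [if_neg (by omega), if_neg (by omega), if_neg (by omega), if_neg (by omega),
    if_neg (by omega), if_pos h1]
lemma rk_D (hg : 4 ≤ g) (h0 : 3 * g ≤ x) :
    rk g q x = if q < x - 3 * g + 3 then g + (x - 3 * g + 3) - q - 1
      else 2 * g + (x - 3 * g + 3) - q - 1 := by
  unfold rk; rw [if_neg (by omega), if_neg (by omega), if_neg (by omega), if_neg (by omega),
    if_neg (by omega), if_neg (by omega)]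

lemma arcCol_0 : arcCol g 0 y = 0 := by simp [arcCol]
lemma arcCol_A (h0 : 0 < x) (h1 : x < g) : arcCol g x y = x := by
  unfold arcCol; rw [if_neg (by omega), if_pos h1]
lemma arcCol_g (hg : 4 ≤ g) : arcCol g g y = if y = 1 then 0 else 1 := by
  unfold arcCol; rw [if_neg (by omega), if_neg (by omega), if_pos rfl]
lemma arcCol_B (h0 : g < x) (h1 : x < 2 * g) : arcCol g x y = x - g := by
  unfold arcCol; rw [if_neg (by omega), if_neg (by omega), if_neg (by omega), if_pos h1]
lemma arcCol_2g (hg : 4 ≤ g) : arcCol g (2 * g) y = if y = g + 1 then 0 else 2 := by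
  unfold arcCol; rw [if_neg (by omega), if_neg (by omega), if_neg (by omega),
    if_neg (by omega), if_pos rfl]
lemma arcCol_C (h0 : 2 * g < x) (h1 : x < 3 * g) : arcCol g x y = x - 2 * g := by
  unfold arcCol; rw [if_neg (by omega), if_neg (by omega), if_neg (by omega),
    if_neg (by omega), if_neg (by omega), if_pos h1]
lemma arcCol_D (hg : 4 ≤ g) (h0 : 3 * g ≤ x) :
    arcCol g x y = if x = 3 * g ∧ y = 2 * g + 1 then 0 else x - 3 * g + 3 := by
  unfold arcCol; rw [if_neg (by omega), if_neg (by omega), if_neg (by omega),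
    if_neg (by omega), if_neg (by omega), if_neg (by omega)]

lemma col_0 : col g 0 = 0 := by simp [col]
lemma col_A (h0 : 0 < x) (h1 : x < g) : col g x = x - 1 := by
  unfold col; rw [if_neg (by omega), if_pos h1]
lemma col_g (hg : 4 ≤ g) : col g g = 1 := by
  unfold col; rw [if_neg (by omega), if_neg (by omega), if_pos rfl]
lemma col_B (h0 : g < x) (h1 : x < 2 * g) : col g x = x - g - 1 := by
  unfold col; rw [if_neg (by omega), if_neg (by omega), if_neg (by omega), if_pos h1]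
lemma col_2g (hg : 4 ≤ g) : col g (2 * g) = 2 := by
  unfold col; rw [if_neg (by omega), if_neg (by omega), if_neg (by omega),
    if_neg (by omega), if_pos rfl]
lemma col_C (h0 : 2 * g < x) (h1 : x < 3 * g) : col g x = x - 2 * g - 1 := by
  unfold col; rw [if_neg (by omega), if_neg (by omega), if_neg (by omega),
    if_neg (by omega), if_neg (by omega), if_pos h1]
lemma col_D (hg : 4 ≤ g) (h0 : 3 * g ≤ x) :
    col g x = if x = 4 * g - 4 then 0 else x - 3 * g + 3 := by
  unfold col; rw [if_neg (by omega), if_neg (by omega), if_neg (by omega),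
    if_neg (by omega), if_neg (by omega), if_neg (by omega)]

/-- The arcs, sorted by the regions of their ends. -/
lemma tAdj_cases (hg : 4 ≤ g) (h : tAdj g x y) :
    (0 < x ∧ x < g ∧ 0 < y ∧ y < g ∧ y = x + 1) ∨
    (g < x ∧ x < 2 * g ∧ g < y ∧ y < 2 * g ∧ y = x + 1) ∨
    (2 * g < x ∧ x < 3 * g ∧ 2 * g < y ∧ y < 3 * g ∧ y = x + 1) ∨
    (0 < x ∧ x < g ∧ x = g - 1 ∧ (y = 0 ∨ y = g)) ∨
    (g < x ∧ x < 2 * g ∧ x = 2 * g - 1 ∧ (y = 0 ∨ y = 2 * g)) ∨
    (2 * g < x ∧ x < 3 * g ∧ x = 3 * g - 1 ∧ (y = 0 ∨ y = 3 * g)) ∨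
    ((x = 0 ∨ x = g) ∧ 0 < y ∧ y < g ∧ y = 1) ∨
    ((x = 0 ∨ x = 2 * g) ∧ g < y ∧ y < 2 * g ∧ y = g + 1) ∨
    ((x = 0 ∨ x = 3 * g) ∧ 2 * g < y ∧ y < 3 * g ∧ y = 2 * g + 1) ∨
    (x = 0 ∧ y = g) ∨ (x = g ∧ y = 2 * g) ∨ (x = 2 * g ∧ y = 3 * g) ∨
    (3 * g ≤ x ∧ 3 * g ≤ y ∧ y = x + 1 ∧ x < 4 * g - 4) ∨
    (3 * g ≤ x ∧ x = 4 * g - 4 ∧ y = 0) := by
  unfold tAdj at h
  rcases h with ⟨h1, h2, h3, h4, h5⟩ | ⟨h1, h2 | h2 | h2 | h2⟩ | ⟨h1, h2 | h2 | h2 | h2⟩ |
    ⟨h1, h2⟩ | ⟨h1, h2⟩ | ⟨h1, h2⟩ | ⟨h1, h2⟩ | ⟨h1, h2⟩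
  · have hx : (x + 1 < g) ∨ (x + 1 = g) ∨ (g < x ∧ x + 1 < 2 * g) ∨ (x + 1 = 2 * g) ∨
        (2 * g < x ∧ x + 1 < 3 * g) ∨ (x + 1 = 3 * g) ∨ 3 * g ≤ x := by omega
    rcases hx with hx | hx | hx | hx | hx | hx | hx
    · left; exact ⟨by omega, by omega, by omega, by omega, h1⟩
    · right; right; right; left; exact ⟨by omega, by omega, by omega, by omega⟩
    · right; left; exact ⟨by omega, by omega, by omega, by omega, h1⟩
    · right; right; right; right; left; exact ⟨by omega, by omega, by omega, by omega⟩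
    · right; right; left; exact ⟨by omega, by omega, by omega, by omega, h1⟩
    · right; right; right; right; right; left; exact ⟨by omega, by omega, by omega, by omega⟩
    · iterate 12 right
      left; exact ⟨by omega, by omega, by omega, by omega⟩
  · iterate 6 right
    left; exact ⟨Or.inl h1, by omega, by omega, h2⟩
  · iterate 7 right
    left; exact ⟨Or.inl h1, by omega, by omega, h2⟩
  · iterate 8 right
    left; exact ⟨Or.inl h1, by omega, by omega, h2⟩
  · iterate 9 right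
    left; exact ⟨h1, h2⟩
  · iterate 3 right
    left; exact ⟨by omega, by omega, h2, Or.inl h1⟩
  · iterate 4 right
    left; exact ⟨by omega, by omega, h2, Or.inl h1⟩
  · iterate 5 right
    left; exact ⟨by omega, by omega, h2, Or.inl h1⟩
  · iterate 13 right
    exact ⟨by omega, h2, h1⟩
  · iterate 6 right
    left; exact ⟨Or.inr h1, by omega, by omega, h2⟩
  · iterate 7 right
    left; exact ⟨Or.inr h1, by omega, by omega, h2⟩
  · iterate 8 right
    left; exact ⟨Or.inr h1, by omega, by omega, h2⟩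
  · iterate 10 right
    left; exact ⟨h1, h2⟩
  · iterate 11 right
    left; exact ⟨h1, h2⟩

lemma rk_lt (hg : 4 ≤ g) (hq : q < g) (h : tAdj g x y) (hc : arcCol g x y ≠ q) :
    rk g q x < rk g q y := by
  rcases tAdj_cases hg h with ⟨h1, h2, h3, h4, h5⟩ | ⟨h1, h2, h3, h4, h5⟩ |
    ⟨h1, h2, h3, h4, h5⟩ | ⟨h1, h2, h3, h4⟩ | ⟨h1, h2, h3, h4⟩ | ⟨h1, h2, h3, h4⟩ |
    ⟨h1, h2, h3, h4⟩ | ⟨h1, h2, h3, h4⟩ | ⟨h1, h2, h3, h4⟩ | ⟨h1, h2⟩ | ⟨h1, h2⟩ |
    ⟨h1, h2⟩ | ⟨h1, h2, h3, h4⟩ | ⟨h1, h2, h3⟩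
  · rw [arcCol_A h1 h2] at hc; rw [rk_A h1 h2, rk_A h3 h4]; split_ifs <;> omega
  · rw [arcCol_B h1 h2] at hc; rw [rk_B h1 h2, rk_B h3 h4]; split_ifs <;> omega
  · rw [arcCol_C h1 h2] at hc; rw [rk_C h1 h2, rk_C h3 h4]; split_ifs <;> omega
  · rw [arcCol_A h1 h2] at hc; rw [rk_A h1 h2]
    rcases h4 with rfl | rfl
    · rw [rk_0]; split_ifs <;> omega
    · rw [rk_g hg]; split_ifs <;> omega
  · rw [arcCol_B h1 h2] at hc; rw [rk_B h1 h2]
    rcases h4 with rfl | rfl
    · rw [rk_0]; split_ifs <;> omega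
    · rw [rk_2g hg]; split_ifs <;> omega
  · rw [arcCol_C h1 h2] at hc; rw [rk_C h1 h2]
    rcases h4 with rfl | rfl
    · rw [rk_0]; split_ifs <;> omega
    · rw [rk_D hg le_rfl]; split_ifs <;> omega
  · rw [rk_A h2 h3]
    rcases h1 with rfl | rfl
    · rw [arcCol_0] at hc; rw [rk_0]; split_ifs <;> omega
    · rw [arcCol_g hg, if_pos h4] at hc; rw [rk_g hg]; split_ifs <;> omega
  · rw [rk_B h2 h3]
    rcases h1 with rfl | rfl
    · rw [arcCol_0] at hc; rw [rk_0]; split_ifs <;> omega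
    · rw [arcCol_2g hg, if_pos h4] at hc; rw [rk_2g hg]; split_ifs <;> omega
  · rw [rk_C h2 h3]
    rcases h1 with rfl | rfl
    · rw [arcCol_0] at hc; rw [rk_0]; split_ifs <;> omega
    · rw [arcCol_D hg le_rfl, if_pos ⟨rfl, h4⟩] at hc; rw [rk_D hg le_rfl]; split_ifs <;> omega
  · subst h1 h2
    rw [arcCol_0] at hc; rw [rk_0, rk_g hg]; split_ifs <;> omega
  · subst h1 h2
    rw [arcCol_g hg, if_neg (by omega)] at hc; rw [rk_2g hg, rk_g hg]; split_ifs <;> omega
  · subst h1 h2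
    rw [arcCol_2g hg, if_neg (by omega)] at hc; rw [rk_2g hg, rk_D hg le_rfl]
    split_ifs <;> omega
  · rw [arcCol_D hg h1, if_neg (by omega)] at hc; rw [rk_D hg h1, rk_D hg h2]
    split_ifs <;> omega
  · subst h3
    rw [arcCol_D hg h1, if_neg (by omega)] at hc; rw [rk_D hg h1, rk_0]
    split_ifs <;> omega

lemma col_of_arcCol (hg : 4 ≤ g) (hq : q < g - 1)
    (h : tAdj g x y) (hc : arcCol g x y = q) : col g x = q ∨ col g y = q := by
  rcases tAdj_cases hg h with ⟨h1, h2, h3, h4, h5⟩ | ⟨h1, h2, h3, h4, h5⟩ |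
    ⟨h1, h2, h3, h4, h5⟩ | ⟨h1, h2, h3, h4⟩ | ⟨h1, h2, h3, h4⟩ | ⟨h1, h2, h3, h4⟩ |
    ⟨h1, h2, h3, h4⟩ | ⟨h1, h2, h3, h4⟩ | ⟨h1, h2, h3, h4⟩ | ⟨h1, h2⟩ | ⟨h1, h2⟩ |
    ⟨h1, h2⟩ | ⟨h1, h2, h3, h4⟩ | ⟨h1, h2, h3⟩
  · rw [arcCol_A h1 h2] at hc; rw [col_A h1 h2, col_A h3 h4]; omega
  · rw [arcCol_B h1 h2] at hc; rw [col_B h1 h2, col_B h3 h4]; omega
  · rw [arcCol_C h1 h2] at hc; rw [col_C h1 h2, col_C h3 h4]; omega
  · rw [arcCol_A h1 h2] at hc; omega
  · rw [arcCol_B h1 h2] at hc; omega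
  · rw [arcCol_C h1 h2] at hc; omega
  · rw [col_A h2 h3]
    rcases h1 with rfl | rfl
    · rw [arcCol_0] at hc; omega
    · rw [arcCol_g hg, if_pos h4] at hc; omega
  · rw [col_B h2 h3]
    rcases h1 with rfl | rfl
    · rw [arcCol_0] at hc; omega
    · rw [arcCol_2g hg, if_pos h4] at hc; omega
  · rw [col_C h2 h3]
    rcases h1 with rfl | rfl
    · rw [arcCol_0] at hc; omega
    · rw [arcCol_D hg le_rfl, if_pos ⟨rfl, h4⟩] at hc; omega
  · subst h1 h2
    rw [arcCol_0] at hc; rw [col_0, col_g hg]; omega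
  · subst h1 h2
    rw [arcCol_g hg, if_neg (by omega)] at hc; rw [col_2g hg, col_g hg]; omega
  · subst h1 h2
    rw [arcCol_2g hg, if_neg (by omega)] at hc; rw [col_2g hg]; omega
  · rw [arcCol_D hg h1, if_neg (by omega)] at hc; rw [col_D hg h1, if_neg (by omega)]; omega
  · subst h3
    rw [arcCol_D hg h1, if_neg (by omega)] at hc; omega

end regions

lemma col_lt {g x : ℕ} (hg : 4 ≤ g) (hx : x < 4 * g - 3) : col g x < g - 1 := by
  unfold col
  split_ifs <;> omega

/-- Every directed cycle contains arcs of all `g` colours. -/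
lemma exists_arcCol {g n : ℕ} (hg : 4 ≤ g) {f : ℕ → Fin (4 * g - 3)}
    (hf : IsDirectedCycle (tDigraph g) n f) {q : ℕ} (hq : q < g) :
    ∃ i < n, arcCol g (f i).val (f (i + 1)).val = q := by
  obtain ⟨hn, hcl, -, hadj⟩ := hf
  by_contra hcon
  push Not at hcon
  have key : ∀ i ≤ n, rk g q (f 0).val + i ≤ rk g q (f i).val := by
    intro i
    induction i with
    | zero => intro _; simp
    | succ i ih =>
      intro hi
      have h1 := ih (by omega)
      have h2 := rk_lt hg hq (hadj i (by omega)) (hcon i (by omega))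
      omega
  have := key n le_rfl
  rw [hcl] at this
  omega

lemma le_length {g n : ℕ} (hg : 4 ≤ g) {f : ℕ → Fin (4 * g - 3)}
    (hf : IsDirectedCycle (tDigraph g) n f) : g ≤ n := by
  have hsub : Finset.range g ⊆
      (Finset.range n).image (fun i => arcCol g (f i).val (f (i + 1)).val) := by
    intro q hq
    obtain ⟨i, hi, h⟩ := exists_arcCol hg hf (Finset.mem_range.mp hq)
    exact Finset.mem_image.mpr ⟨i, Finset.mem_range.mpr hi, h⟩
  have h1 := Finset.card_le_card hsub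
  have h2 := Finset.card_image_le (s := Finset.range n)
    (f := fun i => arcCol g (f i).val (f (i + 1)).val)
  simp only [Finset.card_range] at h1 h2
  omega

/-- Every directed cycle contains vertices of all `g - 1` colours. -/
lemma exists_col {g n : ℕ} (hg : 4 ≤ g) {f : ℕ → Fin (4 * g - 3)}
    (hf : IsDirectedCycle (tDigraph g) n f) {q : ℕ} (hq : q < g - 1) :
    ∃ i < n, col g (f i).val = q := by
  obtain ⟨i, hi, h⟩ := exists_arcCol hg hf (q := q) (by omega)
  obtain ⟨hn, hcl, -, hadj⟩ := hf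
  rcases col_of_arcCol hg hq (hadj i hi) h with h' | h'
  · exact ⟨i, hi, h'⟩
  · by_cases hin : i + 1 < n
    · exact ⟨i + 1, hin, h'⟩
    · have : i + 1 = n := by omega
      rw [this, hcl] at h'
      exact ⟨0, by omega, h'⟩

/-- Labels as vertices. -/
def vt (g x : ℕ) (hg : 4 ≤ g) : Fin (4 * g - 3) := ⟨min x (4 * g - 4), by omega⟩

lemma vt_val {g x : ℕ} (hg : 4 ≤ g) (hx : x ≤ 4 * g - 4) : (vt g x hg).val = x := by
  simp [vt]; omega

/-- The base cycle, as a sequence of labels. -/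
def baseSeq (g i : ℕ) : ℕ :=
  if i = 0 then 0 else if i = 1 then g else if i = 2 then 2 * g
  else if i < g then 3 * g + i - 3 else 0

lemma baseSeq_le {g i : ℕ} (hg : 4 ≤ g) : baseSeq g i ≤ 4 * g - 4 := by
  unfold baseSeq; split_ifs <;> omega

lemma baseSeq_ge {g i : ℕ} (h : 3 ≤ i) (hi : i < g) : baseSeq g i = 3 * g + i - 3 := by
  unfold baseSeq
  rw [if_neg (by omega), if_neg (by omega), if_neg (by omega), if_pos hi]

lemma baseSeq_self {g : ℕ} (h : 4 ≤ g) : baseSeq g g = 0 := by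
  unfold baseSeq
  rw [if_neg (by omega), if_neg (by omega), if_neg (by omega), if_neg (by omega)]

lemma base_cycle {g : ℕ} (hg : 4 ≤ g) :
    IsDirectedCycle (tDigraph g) g (fun i => vt g (baseSeq g i) hg) := by
  refine ⟨by omega, ?_, ?_, ?_⟩
  · have : baseSeq g g = baseSeq g 0 := by unfold baseSeq; split_ifs <;> omega
    simp [this]
  · intro i hi j hj hij
    simp only [Set.mem_Iio] at hi hj
    have h := congrArg Fin.val hij
    simp only [vt_val hg (baseSeq_le hg)] at h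
    unfold baseSeq at h
    split_ifs at h <;> omega
  · intro i hi
    change tAdj g _ _
    rw [vt_val hg (baseSeq_le hg), vt_val hg (baseSeq_le hg)]
    have hcases : i = 0 ∨ i = 1 ∨ i = 2 ∨ (3 ≤ i ∧ i + 1 < g) ∨ (3 ≤ i ∧ i + 1 = g) := by omega
    rcases hcases with h | h | h | ⟨h1, h2⟩ | ⟨h1, h2⟩
    · subst h; simp [baseSeq, tAdj]
    · subst h; simp [baseSeq, tAdj]
    · subst h; rw [baseSeq_ge (g := g) (i := 2 + 1) (by omega) (by omega)]; simp [baseSeq, tAdj]
    · rw [baseSeq_ge h1 (by omega), baseSeq_ge (by omega) h2]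
      exact Or.inl ⟨by omega, by omega, by omega, by omega, by omega⟩
    · rw [baseSeq_ge h1 (by omega), h2, baseSeq_self (by omega)]
      exact Or.inr (Or.inr (Or.inl ⟨rfl, Or.inr (Or.inr (Or.inr (by omega)))⟩))

/-- The cycle through `W_j` and the vertex `u`, as a sequence of labels
(`s = (j-1) g` is the offset). -/
def forkSeq (g s u i : ℕ) : ℕ :=
  if i = 0 then u else if i < g then s + i else u

lemma fork_cycle {g s u : ℕ} (hg : 4 ≤ g) (hs : s = 0 ∨ s = g ∨ s = 2 * g)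
    (hu : u = 0 ∨ u = s + g) :
    IsDirectedCycle (tDigraph g) g (fun i => vt g (forkSeq g s u i) hg) := by
  have hle : ∀ i, forkSeq g s u i ≤ 4 * g - 4 := by
    intro i; unfold forkSeq; split_ifs <;> omega
  refine ⟨by omega, ?_, ?_, ?_⟩
  · have : forkSeq g s u g = forkSeq g s u 0 := by unfold forkSeq; split_ifs <;> omega
    simp [this]
  · intro i hi j hj hij
    simp only [Set.mem_Iio] at hi hj
    have h := congrArg Fin.val hij
    simp only [vt_val hg (hle _)] at h
    unfold forkSeq at h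
    split_ifs at h <;> omega
  · intro i hi
    change tAdj g _ _
    rw [vt_val hg (hle _), vt_val hg (hle _)]
    have hcases : i = 0 ∨ (1 ≤ i ∧ i + 1 < g) ∨ (1 ≤ i ∧ i + 1 = g) := by omega
    rcases hcases with h | ⟨h1, h2⟩ | ⟨h1, h2⟩
    · subst h
      have e0 : forkSeq g s u 0 = u := by simp [forkSeq]
      have e1 : forkSeq g s u (0 + 1) = s + 1 := by
        unfold forkSeq; rw [if_neg (by omega), if_pos (by omega)]
      rw [e0, e1]
      rcases hu with rfl | rfl
      · refine Or.inr (Or.inl ⟨rfl, ?_⟩)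
        rcases hs with rfl | rfl | rfl
        · exact Or.inl rfl
        · exact Or.inr (Or.inl rfl)
        · exact Or.inr (Or.inr (Or.inl rfl))
      · refine Or.inr (Or.inr (Or.inr ?_))
        rcases hs with rfl | rfl | rfl
        · exact Or.inl ⟨by omega, by omega⟩
        · exact Or.inr (Or.inl ⟨by omega, by omega⟩)
        · exact Or.inr (Or.inr (Or.inl ⟨by omega, by omega⟩))
    · have e0 : forkSeq g s u i = s + i := by
        unfold forkSeq; rw [if_neg (by omega), if_pos (by omega)]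
      have e1 : forkSeq g s u (i + 1) = s + (i + 1) := by
        unfold forkSeq; rw [if_neg (by omega), if_pos (by omega)]
      rw [e0, e1]
      exact Or.inl ⟨by omega, by omega, by omega, by omega, by omega⟩
    · have e0 : forkSeq g s u i = s + i := by
        unfold forkSeq; rw [if_neg (by omega), if_pos (by omega)]
      have e1 : forkSeq g s u (i + 1) = u := by
        unfold forkSeq; rw [if_neg (by omega), if_neg (by omega)]
      rw [e0, e1]
      rcases hu with rfl | rfl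
      · refine Or.inr (Or.inr (Or.inl ⟨rfl, ?_⟩))
        rcases hs with rfl | rfl | rfl
        · exact Or.inl (by omega)
        · exact Or.inr (Or.inl (by omega))
        · exact Or.inr (Or.inr (Or.inl (by omega)))
      · exact Or.inl ⟨by omega, by omega, by omega, by omega, by omega⟩

lemma hasDigirth {g : ℕ} (hg : 4 ≤ g) : HasDigirth (tDigraph g) g := by
  refine ⟨⟨_, base_cycle hg⟩, ?_⟩
  rintro n ⟨f, hf⟩
  exact le_length hg hf

/-- The `(g-1, g-2)`-colouring. -/
lemma colouring {g : ℕ} (hg : 4 ≤ g) :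
    IsAcyclicColouring (tDigraph g) (g - 1) (g - 2) (fun v => (col g v.val : ZMod (g - 1))) := by
  refine ⟨by omega, by omega, ?_⟩
  intro i n f hf hall
  have : NeZero (g - 1) := ⟨by omega⟩
  have hlt : (i + ((g - 2 : ℕ) : ZMod (g - 1))).val < g - 1 := ZMod.val_lt _
  obtain ⟨t, ht, hcol⟩ := exists_col hg hf hlt
  obtain ⟨j, hj, hjc⟩ := hall t ht
  have h1 : ((col g (f t).val : ℕ) : ZMod (g - 1)) = i + ((g - 2 : ℕ) : ZMod (g - 1)) := by
    rw [hcol, ZMod.natCast_zmod_val]
  have h2 : ((j : ℕ) : ZMod (g - 1)) = ((g - 2 : ℕ) : ZMod (g - 1)) := by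
    have := hjc.symm.trans h1
    exact add_left_cancel this
  rw [ZMod.natCast_eq_natCast_iff'] at h2
  rw [Nat.mod_eq_of_lt (by omega), Nat.mod_eq_of_lt (by omega)] at h2
  omega

/-- In an acyclic `(k, d)`-colouring every directed cycle meets every window of `k - d`
consecutive colours. -/
lemma hit {D : Digraph V} {k d : ℕ} {c : V → ZMod k} (hc : IsAcyclicColouring D k d c)
    {n : ℕ} {f : ℕ → V} (hf : IsDirectedCycle D n f) (x : ZMod k) :
    ∃ i < n, ∃ j < k - d, c (f i) = x + (j : ZMod k) := by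
  obtain ⟨hd, hdk, hac⟩ := hc
  have : NeZero k := ⟨by omega⟩
  have h := hac (x + ((k - d : ℕ) : ZMod k)) n f hf
  push Not at h
  obtain ⟨i, hi, hmem⟩ := h
  refine ⟨i, hi, (c (f i) - x).val, ?_, ?_⟩
  · by_contra hcon
    push Not at hcon
    apply hmem
    refine ⟨(c (f i) - x).val - (k - d), ?_, ?_⟩
    · have := ZMod.val_lt (c (f i) - x)
      omega
    · rw [Nat.cast_sub hcon, ZMod.natCast_zmod_val]
      ring
  · rw [ZMod.natCast_zmod_val]; ring

/-- The fork lemma: if the `g - 1` vertices of a path together with `u`, and together with `v`,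
form directed cycles, and `(g-1) m < k`, then the colours of `u` and `v` lie in one window of
`m = k - d` consecutive colours. -/
lemma fork {D : Digraph V} {k d g : ℕ} {c : V → ZMod k} (hc : IsAcyclicColouring D k d c)
    (hk : (g - 1) * (k - d) < k) {f f' : ℕ → V}
    (hf : IsDirectedCycle D g f) (hf' : IsDirectedCycle D g f')
    (hff : ∀ i, 1 ≤ i → i < g → f i = f' i) :
    ∃ y : ZMod k, ∃ j < k - d, ∃ j' < k - d, c (f 0) = y + (j : ZMod k) ∧
      c (f' 0) = y + (j' : ZMod k) := by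
  classical
  obtain ⟨hd, hdk, hac⟩ := id hc
  have : NeZero k := ⟨by omega⟩
  -- a colour `x` which is not in `c w + [0, m)` for any path vertex `w`
  have hex : ∃ x : ZMod k, ∀ i, 1 ≤ i → i < g → ∀ j < k - d, c (f i) + (j : ZMod k) ≠ x := by
    by_contra hcon
    push Not at hcon
    have hsub : (Finset.univ : Finset (ZMod k)) ⊆
        (Finset.Ico 1 g ×ˢ Finset.range (k - d)).image
          (fun p => c (f p.1) + ((p.2 : ℕ) : ZMod k)) := by
      intro x _
      obtain ⟨i, hi, hi', j, hj, h⟩ := hcon x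
      exact Finset.mem_image.mpr ⟨(i, j), by simp [hi, hi', hj], h⟩
    have h1 := Finset.card_le_card hsub
    have h2 := Finset.card_image_le (s := Finset.Ico 1 g ×ˢ Finset.range (k - d))
      (f := fun p => c (f p.1) + ((p.2 : ℕ) : ZMod k))
    simp only [Finset.card_univ, ZMod.card, Finset.card_product, Nat.card_Ico,
      Finset.card_range] at h1 h2
    omega
  obtain ⟨x, hx⟩ := hex
  -- the window ending at `x`
  have main : ∀ F : ℕ → V, IsDirectedCycle D g F → (∀ i, 1 ≤ i → i < g → F i = f i) →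
      ∃ j < k - d, c (F 0) = x - ((k - d - 1 : ℕ) : ZMod k) + (j : ZMod k) := by
    intro F hF hFf
    obtain ⟨i, hi, j, hj, h⟩ := hit hc hF (x - ((k - d - 1 : ℕ) : ZMod k))
    rcases Nat.eq_zero_or_pos i with h0 | h0
    · subst h0
      exact ⟨j, hj, h⟩
    · exfalso
      apply hx i h0 hi (k - d - 1 - j) (by omega)
      rw [← hFf i h0 hi, h, Nat.cast_sub (show j ≤ k - d - 1 by omega)]
      ring
  obtain ⟨j, hj, h⟩ := main f hf (fun i _ _ => rfl)
  obtain ⟨j', hj', h'⟩ := main f' hf' (fun i h1 h2 => (hff i h1 h2).symm)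
  exact ⟨_, j, hj, j', hj', h, h'⟩

lemma lower {g : ℕ} (hg : 4 ≤ g) {k d : ℕ} {c : Fin (4 * g - 3) → ZMod k}
    (hc : IsAcyclicColouring (tDigraph g) k d c) : k ≤ (g - 1) * (k - d) := by
  by_contra hcon
  push Not at hcon
  obtain ⟨hd, hdk, hac⟩ := id hc
  have : NeZero k := ⟨by omega⟩
  set m := k - d with hm
  -- the colours of `b_1, b_2, b_3` are within distance `m - 1` of the colour of `b_0`
  have hfork : ∀ s, (s = 0 ∨ s = g ∨ s = 2 * g) → ∃ j < m, ∃ j' < m,
      c (vt g (s + g) hg) + (j : ZMod k) = c (vt g 0 hg) + (j' : ZMod k) := by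
    intro s hs
    obtain ⟨y, j, hj, j', hj', h, h'⟩ := fork hc hcon
      (fork_cycle hg hs (Or.inl rfl)) (fork_cycle hg hs (Or.inr rfl))
      (by intro i h1 h2
          have : forkSeq g s 0 i = forkSeq g s (s + g) i := by
            unfold forkSeq; split_ifs <;> omega
          simp [this])
    refine ⟨j, hj, j', hj', ?_⟩
    simp only [forkSeq, if_true] at h h'
    rw [h, h']; ring
  have hm0 : 0 < m := by
    obtain ⟨j, hj, -⟩ := hfork 0 (Or.inl rfl)
    omega
  -- the `g - 3` windows starting at `c b_0 + m`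
  have hwin : ∀ s : ℕ, ∃ i < g, ∃ j < m,
      c (vt g (baseSeq g i) hg) = c (vt g 0 hg) + ((m + s * m + j : ℕ) : ZMod k) := by
    intro s
    obtain ⟨i, hi, j, hj, h⟩ := hit hc (base_cycle hg)
      (c (vt g 0 hg) + ((m + s * m : ℕ) : ZMod k))
    refine ⟨i, hi, j, hj, ?_⟩
    rw [h]; push_cast; ring
  choose I hI J hJ hIJ using hwin
  have hbound : ∀ s, s < g - 3 → m + s * m + J s + m < k + 1 := by
    intro s hs
    have h1 : (s + 3) * m ≤ (g - 1) * m := Nat.mul_le_mul_right m (by omega)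
    have h2 := hJ s
    nlinarith
  -- none of the vertices found is `b_0, b_1, b_2, b_3`
  have hI4 : ∀ s, s < g - 3 → 4 ≤ I s := by
    intro s hs
    by_contra hlt
    push Not at hlt
    have hb := hbound s hs
    have hJs := hJ s
    have hIs := hIJ s
    have hcase : I s = 0 ∨ ∃ s', (s' = 0 ∨ s' = g ∨ s' = 2 * g) ∧ baseSeq g (I s) = s' + g := by
      rcases Nat.eq_zero_or_pos (I s) with h0 | h0
      · exact Or.inl h0
      · right
        have hI3 : I s = 1 ∨ I s = 2 ∨ I s = 3 := by omega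
        rcases hI3 with h | h | h
        · exact ⟨0, Or.inl rfl, by rw [h]; simp [baseSeq]⟩
        · exact ⟨g, Or.inr (Or.inl rfl), by rw [h]; simp [baseSeq]; omega⟩
        · refine ⟨2 * g, Or.inr (Or.inr rfl), ?_⟩
          rw [h, baseSeq_ge le_rfl (by omega)]
          omega
    rcases hcase with h0 | ⟨s', hs', hb'⟩
    · rw [h0] at hIs
      have h1 : ((0 : ℕ) : ZMod k) = ((m + s * m + J s : ℕ) : ZMod k) := by
        have h2 : c (vt g 0 hg) + ((0 : ℕ) : ZMod k)
            = c (vt g 0 hg) + ((m + s * m + J s : ℕ) : ZMod k) := by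
          rw [← hIs]; simp [baseSeq]
        exact add_left_cancel h2
      rw [ZMod.natCast_eq_natCast_iff', Nat.mod_eq_of_lt (by omega),
        Nat.mod_eq_of_lt (by omega)] at h1
      omega
    · rw [hb'] at hIs
      obtain ⟨j, hj, j', hj', h⟩ := hfork s' hs'
      rw [hIs] at h
      have h1 : ((m + s * m + J s + j : ℕ) : ZMod k) = ((j' : ℕ) : ZMod k) := by
        have h2 : c (vt g 0 hg) + ((m + s * m + J s + j : ℕ) : ZMod k)
            = c (vt g 0 hg) + ((j' : ℕ) : ZMod k) := by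
          rw [← h]; push_cast; ring
        exact add_left_cancel h2
      rw [ZMod.natCast_eq_natCast_iff', Nat.mod_eq_of_lt (by omega),
        Nat.mod_eq_of_lt (by omega)] at h1
      omega
  -- the vertices found are distinct
  have hinj : ∀ s s', s < s' → s' < g - 3 → I s ≠ I s' := by
    intro s s' hss hs' heq
    have h1 := hIJ s
    have h2 := hIJ s'
    rw [heq, h2] at h1
    have h3 := add_left_cancel h1
    have hb := hbound s (by omega)
    have hb' := hbound s' hs'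
    rw [ZMod.natCast_eq_natCast_iff', Nat.mod_eq_of_lt (by omega),
        Nat.mod_eq_of_lt (by omega)] at h3
    have h4 : (s + 1) * m ≤ s' * m := Nat.mul_le_mul_right m (by omega)
    have h5 := hJ s
    nlinarith
  -- pigeonhole
  have hmaps : Set.MapsTo I (Finset.range (g - 3)) (Finset.Ico 4 g) := by
    intro s hs
    simp only [Finset.coe_range, Set.mem_Iio] at hs
    simp only [Finset.coe_Ico, Set.mem_Ico]
    exact ⟨hI4 s hs, hI s⟩
  have hcard : (Finset.Ico 4 g).card < (Finset.range (g - 3)).card := by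
    simp only [Nat.card_Ico, Finset.card_range]; omega
  obtain ⟨s, hs, s', hs', hne, heq⟩ :=
    Finset.exists_ne_map_eq_of_card_lt_of_maps_to hcard hmaps
  simp only [Finset.mem_range] at hs hs'
  rcases Nat.lt_or_gt_of_ne hne with h | h
  · exact hinj s s' h hs' heq
  · exact hinj s' s h hs heq.symm

lemma star_eq {g : ℕ} (hg : 4 ≤ g) :
    starDichromaticNumber (tDigraph g) = ((g : ℝ) - 1) / ((g : ℝ) - 2) := by
  have hg' : (4 : ℝ) ≤ g := by exact_mod_cast hg
  have hmem : ((g : ℝ) - 1) / ((g : ℝ) - 2) ∈ {r : ℝ | ∃ (k d : ℕ)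
      (c : Fin (4 * g - 3) → ZMod k), IsAcyclicColouring (tDigraph g) k d c ∧
        r = (k : ℝ) / (d : ℝ)} := by
    refine ⟨g - 1, g - 2, _, colouring hg, ?_⟩
    rw [Nat.cast_sub (by omega), Nat.cast_sub (by omega)]
    norm_num
  have hlow : ((g : ℝ) - 1) / ((g : ℝ) - 2) ∈ lowerBounds {r : ℝ | ∃ (k d : ℕ)
      (c : Fin (4 * g - 3) → ZMod k), IsAcyclicColouring (tDigraph g) k d c ∧
        r = (k : ℝ) / (d : ℝ)} := by
    rintro r ⟨k, d, c, hc, rfl⟩
    have h := lower hg hc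
    obtain ⟨hd, hdk, -⟩ := hc
    have hd' : (0 : ℝ) < d := by exact_mod_cast hd
    rw [div_le_div_iff₀ (by linarith) hd']
    have h' : (k : ℝ) ≤ ((g : ℝ) - 1) * ((k : ℝ) - d) := by
      have h2 : (k : ℝ) ≤ (((g - 1) * (k - d) : ℕ) : ℝ) := by exact_mod_cast h
      rw [Nat.cast_mul, Nat.cast_sub (by omega), Nat.cast_sub hdk] at h2
      simpa using h2
    nlinarith
  exact IsLeast.csInf_eq ⟨hmem, hlow⟩

/-! ## Planarity: a drawing on two pages -/

/-- The page of the arc `x y`: `1` (above the axis) if it is incident with `b_0 = 0`,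
`-1` (below) otherwise. -/
noncomputable def page (x y : ℕ) : ℝ := if x = 0 ∨ y = 0 then 1 else -1

/-- An arc not incident with `0` joins two consecutive integers or is one of the listed arcs. -/
lemma lower_arc {g x y : ℕ} (hg : 4 ≤ g) (h : tAdj g x y) (hx : x ≠ 0) (hy : y ≠ 0) :
    ∃ a b, ((a = x ∧ b = y) ∨ (a = y ∧ b = x)) ∧ a < b ∧
      (b = a + 1 ∨ (b = g ∧ 1 ≤ a) ∨ (b = 2 * g ∧ g ≤ a) ∨ (b = 3 * g ∧ 2 * g ≤ a)) := by
  unfold tAdj at h
  rcases h with ⟨h1, h2, h3, h4, h5⟩ | ⟨h1, h2⟩ | ⟨h1, h2⟩ | ⟨h1, h2⟩ | ⟨h1, h2⟩ | ⟨h1, h2⟩ |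
    ⟨h1, h2⟩ | ⟨h1, h2⟩
  · exact ⟨x, y, Or.inl ⟨rfl, rfl⟩, by omega, Or.inl h1⟩
  · exact absurd h1 hx
  · exact absurd h1 hy
  · exact ⟨y, x, Or.inr ⟨rfl, rfl⟩, by omega, Or.inr (Or.inl ⟨h1, by omega⟩)⟩
  · exact ⟨y, x, Or.inr ⟨rfl, rfl⟩, by omega, Or.inr (Or.inr (Or.inl ⟨h1, by omega⟩))⟩
  · exact ⟨y, x, Or.inr ⟨rfl, rfl⟩, by omega, Or.inr (Or.inr (Or.inr ⟨h1, by omega⟩))⟩
  · exact ⟨x, y, Or.inl ⟨rfl, rfl⟩, by omega, Or.inr (Or.inr (Or.inl ⟨h2, by omega⟩))⟩
  · exact ⟨x, y, Or.inl ⟨rfl, rfl⟩, by omega, Or.inr (Or.inr (Or.inr ⟨h2, by omega⟩))⟩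

lemma tAdj_ne {g x y : ℕ} (hg : 4 ≤ g) (h : tAdj g x y) : x ≠ y := by
  unfold tAdj at h
  rcases h with ⟨h1, h2, h3, h4, h5⟩ | ⟨h1, h2 | h2 | h2 | h2⟩ | ⟨h1, h2 | h2 | h2 | h2⟩ |
    ⟨h1, h2⟩ | ⟨h1, h2⟩ | ⟨h1, h2⟩ | ⟨h1, h2⟩ | ⟨h1, h2⟩ <;> omega

/-- Two arcs on the same page do not interleave. -/
lemma noninterleave {g u v x y : ℕ} (hg : 4 ≤ g) (h : tAdj g u v) (h' : tAdj g x y)
    (hp : page u v = page x y) :
    ∃ a b c d : ℕ, ((a = u ∧ b = v) ∨ (a = v ∧ b = u)) ∧ ((c = x ∧ d = y) ∨ (c = y ∧ d = x)) ∧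
      a < b ∧ c < d ∧ (b ≤ c ∨ d ≤ a ∨ (a ≤ c ∧ d ≤ b) ∨ (c ≤ a ∧ b ≤ d)) := by
  have hne := tAdj_ne hg h
  have hne' := tAdj_ne hg h'
  by_cases h1 : u = 0 ∨ v = 0
  · have h2 : x = 0 ∨ y = 0 := by
      by_contra hcon
      rw [page, page, if_pos h1, if_neg hcon] at hp
      norm_num at hp
    rcases h1 with h1 | h1 <;> rcases h2 with h2 | h2
    · exact ⟨u, v, x, y, Or.inl ⟨rfl, rfl⟩, Or.inl ⟨rfl, rfl⟩, by omega, by omega, by omega⟩
    · exact ⟨u, v, y, x, Or.inl ⟨rfl, rfl⟩, Or.inr ⟨rfl, rfl⟩, by omega, by omega, by omega⟩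
    · exact ⟨v, u, x, y, Or.inr ⟨rfl, rfl⟩, Or.inl ⟨rfl, rfl⟩, by omega, by omega, by omega⟩
    · exact ⟨v, u, y, x, Or.inr ⟨rfl, rfl⟩, Or.inr ⟨rfl, rfl⟩, by omega, by omega, by omega⟩
  · have h2 : ¬ (x = 0 ∨ y = 0) := by
      intro hcon
      rw [page, page, if_neg h1, if_pos hcon] at hp
      norm_num at hp
    push Not at h1 h2
    obtain ⟨a, b, hab, hlt, hb⟩ := lower_arc hg h h1.1 h1.2
    obtain ⟨c, d, hcd, hlt', hd⟩ := lower_arc hg h' h2.1 h2.2
    refine ⟨a, b, c, d, hab, hcd, hlt, hlt', ?_⟩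
    clear hab hcd h h' hp h1 h2 hne hne'
    rcases hb with hb | ⟨hb, hb'⟩ | ⟨hb, hb'⟩ | ⟨hb, hb'⟩ <;>
      rcases hd with hd | ⟨hd, hd'⟩ | ⟨hd, hd'⟩ | ⟨hd, hd'⟩ <;> omega

/-- Two arcs drawn as parabolas on the same side, not interleaving and not with the same ends,
meet only on the axis. -/
lemma parabola {a b c d X : ℝ} (hab : a < b) (hcd : c < d) (h1 : a ≤ X) (h2 : X ≤ b)
    (h3 : c ≤ X) (h4 : X ≤ d) (hne : ¬ (a = c ∧ b = d))
    (hni : b ≤ c ∨ d ≤ a ∨ (a ≤ c ∧ d ≤ b) ∨ (c ≤ a ∧ b ≤ d))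
    (heq : (X - a) * (b - X) = (X - c) * (d - X)) : (X - a) * (b - X) = 0 := by
  rcases hni with h | h | ⟨h, h'⟩ | ⟨h, h'⟩
  · have : X = b := le_antisymm h2 (h.trans h3)
    rw [this]; ring
  · have : X = a := le_antisymm (h4.trans h) h1
    rw [this]; ring
  · have e : (X - a) * (b - d) + (c - a) * (d - X) = 0 := by linear_combination heq
    have p1 : 0 ≤ (X - a) * (b - d) := mul_nonneg (by linarith) (by linarith)
    have p2 : 0 ≤ (c - a) * (d - X) := mul_nonneg (by linarith) (by linarith)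
    have q1 : (X - a) * (b - d) = 0 := by linarith
    have q2 : (c - a) * (d - X) = 0 := by linarith
    rcases mul_eq_zero.mp q1 with hh | hh
    · rw [hh]; ring
    · rcases mul_eq_zero.mp q2 with hk | hk
      · exact absurd ⟨by linarith, by linarith⟩ hne
      · have : b - X = 0 := by linarith
        rw [this]; ring
  · have e : (X - c) * (d - b) + (a - c) * (b - X) = 0 := by linear_combination -heq
    have p1 : 0 ≤ (X - c) * (d - b) := mul_nonneg (by linarith) (by linarith)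
    have p2 : 0 ≤ (a - c) * (b - X) := mul_nonneg (by linarith) (by linarith)
    have q1 : (X - c) * (d - b) = 0 := by linarith
    have q2 : (a - c) * (b - X) = 0 := by linarith
    rcases mul_eq_zero.mp q2 with hh | hh
    · rcases mul_eq_zero.mp q1 with hk | hk
      · have : X - a = 0 := by linarith
        rw [this]; ring
      · exact absurd ⟨by linarith, by linarith⟩ hne
    · rw [hh]; ring

/-- The curve of the arc `u v`. -/
noncomputable def curve (u v : ℕ) (t : ℝ) : ℝ × ℝ :=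
  let X : ℝ := (u : ℝ) + ((v : ℝ) - u) * t
  (X, page u v * ((X - u) * (v - X)))

lemma curve_mem {u v a b : ℕ} {q : ℝ × ℝ} (hab : (a = u ∧ b = v) ∨ (a = v ∧ b = u)) (hlt : a < b)
    (hq : q ∈ curve u v '' Set.Icc 0 1) :
    (a : ℝ) ≤ q.1 ∧ q.1 ≤ b ∧ q.2 = page u v * ((q.1 - a) * (b - q.1)) := by
  obtain ⟨t, ⟨ht0, ht1⟩, rfl⟩ := hq
  have hlt' : (a : ℝ) < b := by exact_mod_cast hlt
  rcases hab with ⟨rfl, rfl⟩ | ⟨rfl, rfl⟩
  · refine ⟨?_, ?_, ?_⟩
    · simp only [curve]; nlinarith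
    · simp only [curve]; nlinarith
    · simp only [curve]
  · refine ⟨?_, ?_, ?_⟩
    · simp only [curve]; nlinarith
    · simp only [curve]; nlinarith
    · simp only [curve]; ring

lemma page_ne_zero (u v : ℕ) : page u v ≠ 0 := by
  unfold page; split_ifs <;> norm_num

lemma exists_ordered {u v : ℕ} (h : u ≠ v) :
    ∃ a b : ℕ, ((a = u ∧ b = v) ∨ (a = v ∧ b = u)) ∧ a < b := by
  rcases Nat.lt_or_gt_of_ne h with h | h
  · exact ⟨u, v, Or.inl ⟨rfl, rfl⟩, h⟩
  · exact ⟨v, u, Or.inr ⟨rfl, rfl⟩, h⟩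

lemma isPlanar {g : ℕ} (hg : 4 ≤ g) : IsPlanar (tDigraph g) := by
  refine ⟨fun v => ((v.val : ℝ), 0), fun u v => curve u.val v.val, ?_, ?_, ?_, ?_⟩
  · intro u v h
    have h1 := congrArg Prod.fst h
    simp only [Nat.cast_inj] at h1
    exact Fin.ext h1
  · intro u v h
    have hne : u.val ≠ v.val := tAdj_ne hg h
    have hne' : ((v.val : ℝ) - u.val) ≠ 0 := by
      intro h0
      exact hne (by exact_mod_cast (sub_eq_zero.mp h0).symm)
    refine ⟨?_, ?_, ?_, ?_⟩
    · apply Continuous.continuousOn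
      unfold curve
      fun_prop
    · intro s _ t _ hst
      have h1 := congrArg Prod.fst hst
      simp only [curve] at h1
      have h2 : ((v.val : ℝ) - u.val) * s = ((v.val : ℝ) - u.val) * t := by linarith
      exact mul_left_cancel₀ hne' h2
    · simp [curve]
    · simp [curve]
  · intro u v w h hw
    have hne : u.val ≠ v.val := tAdj_ne hg h
    obtain ⟨a, b, hab, hlt⟩ := exists_ordered hne
    obtain ⟨-, -, h3⟩ := curve_mem hab hlt hw
    have h4 : ((w.val : ℝ) - a) * (b - w.val) = 0 := by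
      have := h3.symm
      rcases mul_eq_zero.mp this with h5 | h5
      · exact absurd h5 (page_ne_zero _ _)
      · exact h5
    have h5 : w.val = a ∨ w.val = b := by
      rcases mul_eq_zero.mp h4 with h6 | h6
      · left; exact_mod_cast sub_eq_zero.mp h6
      · right; exact_mod_cast (sub_eq_zero.mp h6).symm
    rcases hab with ⟨rfl, rfl⟩ | ⟨rfl, rfl⟩
    · rcases h5 with h5 | h5
      · exact Or.inl (Fin.ext h5)
      · exact Or.inr (Fin.ext h5)
    · rcases h5 with h5 | h5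
      · exact Or.inr (Fin.ext h5)
      · exact Or.inl (Fin.ext h5)
  · intro u v x y h h' hn hn' q hq hq'
    by_cases hq0 : q.2 = 0
    · have hne : u.val ≠ v.val := tAdj_ne hg h
      obtain ⟨a, b, hab, hlt⟩ := exists_ordered hne
      obtain ⟨-, -, h3⟩ := curve_mem hab hlt hq
      rw [hq0] at h3
      have h4 : (q.1 - a) * (b - q.1) = 0 := by
        rcases mul_eq_zero.mp h3.symm with h5 | h5
        · exact absurd h5 (page_ne_zero _ _)
        · exact h5
      have h5 : q.1 = a ∨ q.1 = b := by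
        rcases mul_eq_zero.mp h4 with h6 | h6
        · left; linarith
        · right; linarith
      rcases hab with ⟨rfl, rfl⟩ | ⟨rfl, rfl⟩
      · rcases h5 with h5 | h5
        · exact ⟨u, Prod.ext h5 hq0⟩
        · exact ⟨v, Prod.ext h5 hq0⟩
      · rcases h5 with h5 | h5
        · exact ⟨v, Prod.ext h5 hq0⟩
        · exact ⟨u, Prod.ext h5 hq0⟩
    · exfalso
      -- both curves are on the same page
      have hpage : page u.val v.val = page x.val y.val := by
        have hne : u.val ≠ v.val := tAdj_ne hg h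
        obtain ⟨a, b, hab, hlt⟩ := exists_ordered hne
        obtain ⟨i1, i2, i3⟩ := curve_mem hab hlt hq
        have hne' : x.val ≠ y.val := tAdj_ne hg h'
        obtain ⟨c, d, hcd, hlt'⟩ := exists_ordered hne'
        obtain ⟨j1, j2, j3⟩ := curve_mem hcd hlt' hq'
        have k1 : 0 ≤ (q.1 - a) * (b - q.1) := mul_nonneg (by linarith) (by linarith)
        have k2 : 0 ≤ (q.1 - c) * (d - q.1) := mul_nonneg (by linarith) (by linarith)
        unfold page at i3 j3 ⊢
        split_ifs at i3 j3 ⊢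
        · rfl
        · exact absurd (by linarith) hq0
        · exact absurd (by linarith) hq0
        · rfl
      obtain ⟨a, b, c, d, hab, hcd, hlt, hlt', hni⟩ := noninterleave hg h h' hpage
      obtain ⟨i1, i2, i3⟩ := curve_mem hab hlt hq
      obtain ⟨j1, j2, j3⟩ := curve_mem hcd hlt' hq'
      have heq : (q.1 - a) * (b - q.1) = (q.1 - c) * (d - q.1) := by
        have : page u.val v.val * ((q.1 - a) * (b - q.1))
            = page u.val v.val * ((q.1 - c) * (d - q.1)) := by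
          rw [← i3, hpage, ← j3]
        exact mul_left_cancel₀ (page_ne_zero _ _) this
      have hne : ¬ ((a : ℝ) = c ∧ (b : ℝ) = d) := by
        rintro ⟨h1, h2⟩
        have h1' : a = c := by exact_mod_cast h1
        have h2' : b = d := by exact_mod_cast h2
        rcases hab with ⟨r1, r2⟩ | ⟨r1, r2⟩ <;> rcases hcd with ⟨s1, s2⟩ | ⟨s1, s2⟩
        · exact hn ⟨Fin.ext (by omega), Fin.ext (by omega)⟩
        · exact hn' ⟨Fin.ext (by omega), Fin.ext (by omega)⟩
        · exact hn' ⟨Fin.ext (by omega), Fin.ext (by omega)⟩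
        · exact hn ⟨Fin.ext (by omega), Fin.ext (by omega)⟩
      have hni' : (b : ℝ) ≤ c ∨ (d : ℝ) ≤ a ∨ ((a : ℝ) ≤ c ∧ (d : ℝ) ≤ b) ∨
          ((c : ℝ) ≤ a ∧ (b : ℝ) ≤ d) := by exact_mod_cast hni
      have := parabola (by exact_mod_cast hlt) (by exact_mod_cast hlt') i1 i2 j1 j2 hne hni' heq
      rw [this, mul_zero] at i3
      exact hq0 i3

/-- For every `g ≥ 4` there is a planar digraph (finite, without loops) of digirth `g` whose star
dichromatic number is exactly `(g-1)/(g-2)`. -/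
theorem result : ∀ g : ℕ, 4 ≤ g → ∃ (n : ℕ) (D : Digraph (Fin n)),
    (∀ v, ¬ D.Adj v v) ∧ IsPlanar D ∧ HasDigirth D g ∧
      starDichromaticNumber D = ((g : ℝ) - 1) / ((g : ℝ) - 2) := by
  intro g hg
  exact ⟨4 * g - 3, tDigraph g, fun v h => tAdj_ne hg h rfl, isPlanar hg, hasDigirth hg,
    star_eq hg⟩

end Pool.Agent.Results.MP_ff0133_co.StarDichromaticTight
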